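import Pool.Agent.H54.RH.Targets

/-!
# HG: the words with three letters 1 give convex hexagons
-/

set_option autoImplicit false

namespace Pool.Agent.H35.RHX

open Pool.Agent.H54.RH
open Pool.Agent.H54.PM (body IsGon IsEdge)

variable {n : ℕ}

/-- the vertex in which the place `z` is 0 and the place `y` is 2 -/
noncomputable def E (h : W n) (z y : Fin n) : Fin n → ℝ := pw h + Pi.single y 1 - Pi.single z 1

theorem mem_act {h : W n} {t : Fin n} : t ∈ act h ↔ h t = 1 := by simp [act]

theorem E_apply (h : W n) (z y t : Fin n) :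
    E h z y t = ((h t).val : ℝ) + (if t = y then 1 else 0) - (if t = z then 1 else 0) := by
  unfold E pw
  rw [Pi.sub_apply, Pi.add_apply, Pi.single_apply, Pi.single_apply]

theorem pw_vx {h : W n} {z y : Fin n} (hz : h z = 1) (hy : h y = 1) (hzy : z ≠ y) :
    pw (Function.update (Function.update h z 0) y 2) = E h z y := by
  funext t
  rw [E_apply]
  unfold pw
  by_cases hty : t = y
  · subst hty
    rw [Function.update_self, if_pos rfl, if_neg (Ne.symm hzy), hy]
    norm_num
  · rw [Function.update_of_ne hty, if_neg hty]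
    by_cases htz : t = z
    · subst htz
      rw [Function.update_self, if_pos rfl, hz]
      norm_num
    · rw [Function.update_of_ne htz, if_neg htz]
      ring

theorem mem_hf {h : W n} {x : Fin n → ℝ} : x ∈ hf h ↔
    ∃ z y, h z = 1 ∧ h y = 1 ∧ z ≠ y ∧ x = E h z y := by
  classical
  unfold hf
  rw [Finset.mem_image]
  constructor
  · rintro ⟨v, hv, rfl⟩
    rw [Finset.mem_filter] at hv
    obtain ⟨z, y, hz, hy, hzy, rfl⟩ := hv.2
    exact ⟨z, y, hz, hy, hzy, pw_vx hz hy hzy⟩
  · rintro ⟨z, y, hz, hy, hzy, rfl⟩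
    refine ⟨_, ?_, pw_vx hz hy hzy⟩
    rw [Finset.mem_filter]
    exact ⟨Finset.mem_univ _, z, y, hz, hy, hzy, rfl⟩

theorem E_inj {h : W n} {z y z' y' : Fin n} (hzy : z ≠ y) (hzy' : z' ≠ y')
    (he : E h z y = E h z' y') : z = z' ∧ y = y' := by
  have h1 := congrFun he z
  have h2 := congrFun he y
  rw [E_apply, E_apply, if_neg hzy, if_pos rfl] at h1
  rw [E_apply, E_apply, if_pos rfl, if_neg (Ne.symm hzy)] at h2
  constructor
  · by_contra hne
    rw [if_neg hne] at h1
    split_ifs at h1 <;> linarith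
  · by_contra hne
    rw [if_neg hne] at h2
    split_ifs at h2 <;> linarith

theorem pf_HG (_h0 : T_HB) : T_HG := by
  classical
  intro n h h3
  obtain ⟨i, j, k, hij, hik, hjk, hact⟩ := Finset.card_eq_three.1 h3
  have hi : h i = 1 := mem_act.1 (by rw [hact]; simp)
  have hj : h j = 1 := mem_act.1 (by rw [hact]; simp)
  have hk : h k = 1 := mem_act.1 (by rw [hact]; simp)
  have hall : ∀ t, h t = 1 → t = i ∨ t = j ∨ t = k := by
    intro t ht
    have := mem_act.2 ht
    rw [hact] at this
    simpa using this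
  refine ⟨by norm_num, ?_, ?_, ?_⟩
  · have e : hf h = (act h).offDiag.image (fun p => E h p.1 p.2) := by
      ext x
      rw [mem_hf, Finset.mem_image]
      constructor
      · rintro ⟨z, y, hz, hy, hzy, rfl⟩
        exact ⟨(z, y), Finset.mem_offDiag.2 ⟨mem_act.2 hz, mem_act.2 hy, hzy⟩, rfl⟩
      · rintro ⟨⟨z, y⟩, hp, rfl⟩
        obtain ⟨hz, hy, hzy⟩ := Finset.mem_offDiag.1 hp
        exact ⟨z, y, mem_act.1 hz, mem_act.1 hy, hzy, rfl⟩
    rw [e, Finset.card_image_of_injOn, Finset.offDiag_card, h3]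
    rintro ⟨z, y⟩ hp ⟨z', y'⟩ hp' he
    obtain ⟨-, -, hzy⟩ := Finset.mem_offDiag.1 (Finset.mem_coe.1 hp)
    obtain ⟨-, -, hzy'⟩ := Finset.mem_offDiag.1 (Finset.mem_coe.1 hp')
    obtain ⟨h1, h2⟩ := E_inj hzy hzy' he
    exact Prod.ext h1 h2
  · -- the plane
    have hspan : vectorSpan ℝ (hf h : Set (Fin n → ℝ)) =
        Submodule.span ℝ (Set.range (![Pi.single i (1:ℝ) - Pi.single j 1,
          Pi.single i 1 - Pi.single k 1] : Fin 2 → Fin n → ℝ)) := by
      set D := Submodule.span ℝ (Set.range (![Pi.single i (1:ℝ) - Pi.single j 1,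
          Pi.single i 1 - Pi.single k 1] : Fin 2 → Fin n → ℝ)) with hD
      have hd1 : (Pi.single i (1:ℝ) - Pi.single j 1 : Fin n → ℝ) ∈ D :=
        Submodule.subset_span ⟨0, rfl⟩
      have hd2 : (Pi.single i (1:ℝ) - Pi.single k 1 : Fin n → ℝ) ∈ D :=
        Submodule.subset_span ⟨1, rfl⟩
      have hd : ∀ t, h t = 1 → (Pi.single i (1:ℝ) - Pi.single t 1 : Fin n → ℝ) ∈ D := by
        intro t ht
        rcases hall t ht with rfl | rfl | rfl
        · rw [sub_self]; exact D.zero_mem
        · exact hd1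
        · exact hd2
      apply le_antisymm
      · rw [vectorSpan_def, Submodule.span_le]
        rintro _ ⟨a, ha, b, hb, rfl⟩
        obtain ⟨z, y, hz, hy, -, rfl⟩ := mem_hf.1 (Finset.mem_coe.1 ha)
        obtain ⟨z', y', hz', hy', -, rfl⟩ := mem_hf.1 (Finset.mem_coe.1 hb)
        have e : E h z y -ᵥ E h z' y' = ((Pi.single i (1:ℝ) - Pi.single z 1) -
            (Pi.single i (1:ℝ) - Pi.single y 1)) - ((Pi.single i (1:ℝ) - Pi.single z' 1) -
            (Pi.single i (1:ℝ) - Pi.single y' 1)) := by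
          rw [vsub_eq_sub]
          unfold E
          abel
        change E h z y -ᵥ E h z' y' ∈ D
        rw [e]
        exact D.sub_mem (D.sub_mem (hd z hz) (hd y hy)) (D.sub_mem (hd z' hz') (hd y' hy'))
      · rw [hD, Submodule.span_le]
        rintro _ ⟨s, rfl⟩
        fin_cases s
        · have e : (![Pi.single i (1:ℝ) - Pi.single j 1,
              Pi.single i 1 - Pi.single k 1] : Fin 2 → Fin n → ℝ) 0 = E h k i -ᵥ E h k j := by
            rw [vsub_eq_sub, Matrix.cons_val_zero]
            unfold E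
            abel
          change (![Pi.single i (1:ℝ) - Pi.single j 1,
              Pi.single i 1 - Pi.single k 1] : Fin 2 → Fin n → ℝ) 0 ∈ _
          rw [e]
          exact vsub_mem_vectorSpan ℝ (Finset.mem_coe.2 (mem_hf.2 ⟨k, i, hk, hi, Ne.symm hik, rfl⟩))
            (Finset.mem_coe.2 (mem_hf.2 ⟨k, j, hk, hj, Ne.symm hjk, rfl⟩))
        · have e : (![Pi.single i (1:ℝ) - Pi.single j 1,
              Pi.single i 1 - Pi.single k 1] : Fin 2 → Fin n → ℝ) 1 = E h j i -ᵥ E h j k := by
            rw [vsub_eq_sub]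
            change (Pi.single i (1:ℝ) - Pi.single k 1 : Fin n → ℝ) = _
            unfold E
            abel
          change (![Pi.single i (1:ℝ) - Pi.single j 1,
              Pi.single i 1 - Pi.single k 1] : Fin 2 → Fin n → ℝ) 1 ∈ _
          rw [e]
          exact vsub_mem_vectorSpan ℝ (Finset.mem_coe.2 (mem_hf.2 ⟨j, i, hj, hi, Ne.symm hij, rfl⟩))
            (Finset.mem_coe.2 (mem_hf.2 ⟨j, k, hj, hk, hjk, rfl⟩))
    rw [hspan, finrank_span_eq_card, Fintype.card_fin]
    rw [LinearIndependent.pair_iff]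
    intro s t hst
    have h1 := congrFun hst j
    have h2 := congrFun hst k
    simp only [Pi.add_apply, Pi.smul_apply, Pi.sub_apply, Pi.single_apply, smul_eq_mul,
      Pi.zero_apply, if_true, if_neg (Ne.symm hij), if_neg (Ne.symm hik), if_neg hjk,
      if_neg (Ne.symm hjk)] at h1 h2
    constructor <;> linarith
  · intro a ha hmem
    obtain ⟨z, y, hz, hy, hzy, rfl⟩ := mem_hf.1 ha
    have hsub : convexHull ℝ ((hf h : Set (Fin n → ℝ)) \ {E h z y}) ⊆
        {x | x y - x z ≤ 1} := by
      apply convexHull_min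
      · rintro x ⟨hx, hne⟩
        obtain ⟨z', y', hz', hy', hzy', rfl⟩ := mem_hf.1 (Finset.mem_coe.1 hx)
        change E h z' y' y - E h z' y' z ≤ 1
        rw [E_apply, E_apply, hz, hy]
        by_cases h1 : y = y'
        · by_cases h2 : z = z'
          · exact absurd (by rw [h1, h2]; rfl) hne
          · rw [if_pos h1, if_neg (fun hc => hzy' (by rw [← hc, h1])),
              if_neg (fun hc => hzy (by rw [hc, h1])), if_neg h2]
            norm_num
        · rw [if_neg h1]
          split_ifs <;> norm_num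
      · intro x hx x' hx' a b ha hb hab
        change (a • x + b • x') y - (a • x + b • x') z ≤ 1
        simp only [Pi.add_apply, Pi.smul_apply, smul_eq_mul]
        have e1 : x y - x z ≤ 1 := hx
        have e2 : x' y - x' z ≤ 1 := hx'
        nlinarith [mul_le_mul_of_nonneg_left e1 ha, mul_le_mul_of_nonneg_left e2 hb]
    have h1 : E h z y y - E h z y z ≤ 1 := hsub hmem
    rw [E_apply, E_apply, hz, hy, if_pos rfl, if_neg (Ne.symm hzy), if_neg hzy, if_pos rfl] at h1
    norm_num at h1

end Pool.Agent.H35.RHX
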